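import Mathlib
import Pool.Agent.H211.HY.Stm1
import Pool.Graph.R_seed8.H790R3.RB.TWR

/-! Task DCR of the project HY (helper211): the preimages of the critical points are dense. -/

set_option autoImplicit false

open Topology Filter Metric Set MeasureTheory Polynomial

namespace Pool.Agent.H263.HY211

open Pool.Agent.H790R3.RB Pool.Agent.H211.HY

/-! ### Algebra -/

theorem N2_pos {p : ℂ × ℂ} (hp : p ≠ 0) : 0 < N2 p := by
  unfold N2
  by_cases h1 : p.1 = 0
  · have h2 : p.2 ≠ 0 := fun h2 => hp (Prod.ext h1 h2)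
    have := norm_pos_iff.mpr h2
    positivity
  · have := norm_pos_iff.mpr h1
    positivity

/-- the rotated vector -/
noncomputable def rot (p : ℂ × ℂ) : ℂ × ℂ := (-(starRingEnd ℂ) p.2, (starRingEnd ℂ) p.1)

theorem N2_rot (p : ℂ × ℂ) (w : ℂ) : N2 (p + w • rot p) = (1 + ‖w‖ ^ 2) * N2 p := by
  unfold N2 rot
  simp only [Prod.fst_add, Prod.snd_add, Prod.smul_fst, Prod.smul_snd, smul_eq_mul,
    Complex.sq_norm, Complex.normSq_apply, Complex.add_re, Complex.add_im, Complex.mul_re,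
    Complex.mul_im, Complex.neg_re, Complex.neg_im, Complex.conj_re, Complex.conj_im]
  ring

theorem cr_rot (p : ℂ × ℂ) (w : ℂ) : cr p (p + w • rot p) = w * ((N2 p : ℝ) : ℂ) := by
  unfold cr N2 rot
  simp only [Prod.fst_add, Prod.snd_add, Prod.smul_fst, Prod.smul_snd, smul_eq_mul]
  push_cast
  rw [← Complex.mul_conj', ← Complex.mul_conj']
  ring

theorem rot_ne {p : ℂ × ℂ} (hp : p ≠ 0) (w : ℂ) : p + w • rot p ≠ 0 := by
  intro h
  have h1 := N2_rot p w
  rw [h] at h1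
  have h2 := N2_pos hp
  have h3 : N2 (0 : ℂ × ℂ) = 0 := by simp [N2]
  rw [h3] at h1
  have : 0 < (1 + ‖w‖ ^ 2) * N2 p := by positivity
  linarith

theorem cho_rot {p : ℂ × ℂ} (hp : p ≠ 0) (w : ℂ) : cho p (p + w • rot p) ≤ ‖w‖ := by
  have h2 := N2_pos hp
  unfold cho
  rw [cr_rot, N2_rot, norm_mul, Complex.norm_real, Real.norm_of_nonneg h2.le]
  have h3 : N2 p ≤ √(N2 p * ((1 + ‖w‖ ^ 2) * N2 p)) := by
    apply Real.le_sqrt_of_sq_le
    have : 0 ≤ ‖w‖ ^ 2 * (N2 p * N2 p) := by positivity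
    nlinarith
  have h4 : 0 < √(N2 p * ((1 + ‖w‖ ^ 2) * N2 p)) := lt_of_lt_of_le h2 h3
  rw [div_le_iff₀ h4]
  gcongr

/-- the Lagrange identity -/
theorem lagrange (p q : ℂ × ℂ) :
    ‖q.1 * (starRingEnd ℂ) p.1 + q.2 * (starRingEnd ℂ) p.2‖ ^ 2 + ‖cr p q‖ ^ 2 = N2 p * N2 q := by
  unfold cr N2
  simp only [Complex.sq_norm, Complex.normSq_apply, Complex.add_re, Complex.add_im,
    Complex.mul_re, Complex.mul_im, Complex.sub_re, Complex.sub_im, Complex.conj_re,
    Complex.conj_im]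
  ring

/-- parametrisation of the directions near `p` -/
theorem param {p q : ℂ × ℂ} (hp : p ≠ 0) (hq : q ≠ 0) (h : cho p q ≤ 1 / 2) :
    ∃ w a : ℂ, a ≠ 0 ∧ q = a • (p + w • rot p) ∧ ‖w‖ ≤ 2 * cho p q := by
  have hP := N2_pos hp
  have hQ := N2_pos hq
  set α := q.1 * (starRingEnd ℂ) p.1 + q.2 * (starRingEnd ℂ) p.2 with hα
  have hL := lagrange p q
  rw [← hα] at hL
  have hs : 0 < √(N2 p * N2 q) := Real.sqrt_pos.mpr (by positivity)
  have hss : √(N2 p * N2 q) * √(N2 p * N2 q) = N2 p * N2 q := Real.mul_self_sqrt (by positivity)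
  have hc : ‖cr p q‖ = cho p q * √(N2 p * N2 q) := by
    unfold cho
    field_simp
  have hc0 : 0 ≤ cho p q := by unfold cho; positivity
  have hα2 : (3 / 4) * (N2 p * N2 q) ≤ ‖α‖ ^ 2 := by
    have h1 : ‖cr p q‖ ^ 2 = cho p q ^ 2 * (N2 p * N2 q) := by
      rw [hc, mul_pow, sq (√(N2 p * N2 q)), hss]
    have h2 : cho p q ^ 2 ≤ (1 / 2) ^ 2 := by gcongr
    have h3 : cho p q ^ 2 * (N2 p * N2 q) ≤ (1 / 2) ^ 2 * (N2 p * N2 q) := by gcongr
    rw [h1] at hL
    nlinarith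
  have hα0 : α ≠ 0 := by
    intro h0
    rw [h0, norm_zero] at hα2
    have : 0 < N2 p * N2 q := by positivity
    nlinarith
  have hNp : ((N2 p : ℝ) : ℂ) ≠ 0 := by exact_mod_cast hP.ne'
  have hN : ((N2 p : ℝ) : ℂ) = p.1 * (starRingEnd ℂ) p.1 + p.2 * (starRingEnd ℂ) p.2 := by
    unfold N2
    push_cast
    rw [← Complex.mul_conj', ← Complex.mul_conj']
  refine ⟨cr p q / α, α / ((N2 p : ℝ) : ℂ), div_ne_zero hα0 hNp, ?_, ?_⟩
  · have e1 : (α / ((N2 p : ℝ) : ℂ)) • (p + (cr p q / α) • rot p) =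
        (((N2 p : ℝ) : ℂ)⁻¹) • (α • p + cr p q • rot p) := by
      rw [smul_add, smul_add, smul_smul, smul_smul, smul_smul]
      congr 2
      · field_simp
      · field_simp
    rw [e1]
    have e2 : α • p + cr p q • rot p = ((N2 p : ℝ) : ℂ) • q := by
      rw [hN]
      apply Prod.ext
      · simp only [Prod.fst_add, Prod.smul_fst, smul_eq_mul, rot, cr, hα]
        ring
      · simp only [Prod.snd_add, Prod.smul_snd, smul_eq_mul, rot, cr, hα]
        ring
    rw [e2, smul_smul, inv_mul_cancel₀ hNp, one_smul]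
  · rw [norm_div, div_le_iff₀ (norm_pos_iff.mpr hα0), hc]
    have h1 : √(N2 p * N2 q) ≤ 2 * ‖α‖ := by
      apply Real.sqrt_le_iff.mpr
      constructor
      · positivity
      · nlinarith [norm_nonneg α]
    calc cho p q * √(N2 p * N2 q) ≤ cho p q * (2 * ‖α‖) := by gcongr
      _ = 2 * cho p q * ‖α‖ := by ring

/-! ### From the speed to the distance -/

theorem continuous_cr (a : ℂ × ℂ) : Continuous (fun q : ℂ × ℂ => cr a q) := by
  unfold cr
  fun_prop

theorem continuous_N2 : Continuous N2 := by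
  unfold N2
  fun_prop

theorem cho_self (a : ℂ × ℂ) : cho a a = 0 := by
  unfold cho
  rw [cr_self]
  simp

theorem cho_le_of_spd
    (tri : ∀ p q r : ℂ × ℂ, p ≠ 0 → q ≠ 0 → r ≠ 0 → cho p r ≤ cho p q + cho q r)
    {h : ℂ → ℂ × ℂ} {R M : ℝ} (hd : DifferentiableOn ℂ h (ball 0 R))
    (h0 : ∀ z ∈ ball (0 : ℂ) R, h z ≠ 0) (hM : ∀ z ∈ ball (0 : ℂ) R, spd h z ≤ M)
    {w : ℂ} (hw : w ∈ ball (0 : ℂ) R) : cho (h 0) (h w) ≤ M * ‖w‖ := by
  have hR : 0 < R := by
    rw [mem_ball_zero_iff] at hw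
    exact lt_of_le_of_lt (norm_nonneg _) hw
  have hmem : ∀ t ∈ Icc (0 : ℝ) 1, (t : ℂ) * w ∈ ball (0 : ℂ) R := by
    intro t ht
    rw [mem_ball_zero_iff] at hw ⊢
    rw [norm_mul, Complex.norm_real, Real.norm_of_nonneg ht.1]
    calc t * ‖w‖ ≤ 1 * ‖w‖ := by gcongr; exact ht.2
      _ = ‖w‖ := one_mul _
      _ < R := hw
  have h00 : h 0 ≠ 0 := h0 0 (by simpa using hR)
  have hγc : ContinuousOn (fun t : ℝ => h ((t : ℂ) * w)) (Icc 0 1) := by
    apply hd.continuousOn.comp (by fun_prop)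
    intro t ht
    exact hmem t ht
  have key : ∀ M' : ℝ, M * ‖w‖ < M' → cho (h 0) (h w) ≤ M' := by
    intro M' hM'
    have hres := image_le_of_liminf_slope_right_lt_deriv_boundary'
      (f := fun t : ℝ => cho (h 0) (h ((t : ℂ) * w))) (f' := fun _ => M * ‖w‖) (a := 0) (b := 1)
      (B := fun t => M' * t) (B' := fun _ => M') ?_ ?_ ?_ ?_ ?_ ?_
      (show (1 : ℝ) ∈ Icc (0 : ℝ) 1 by simp)
    · simpa using hres
    · unfold cho
      apply ContinuousOn.div
      · exact ((continuous_cr (h 0)).comp_continuousOn hγc).norm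
      · exact (continuousOn_const.mul (continuous_N2.comp_continuousOn hγc)).sqrt
      · intro t ht
        have h1 := N2_pos h00
        have h2 := N2_pos (h0 _ (hmem t ht))
        exact (Real.sqrt_pos.mpr (by positivity)).ne'
    · intro t ht r hr
      have ht' : t ∈ Icc (0 : ℝ) 1 := ⟨ht.1, ht.2.le⟩
      have hat := h0 _ (hmem t ht')
      have hN := N2_pos hat
      set s := (t : ℂ) * w with hs
      have hdat : HasDerivAt h (deriv h s) s :=
        (hd.differentiableAt (isOpen_ball.mem_nhds (hmem t ht'))).hasDerivAt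
      have hline : HasDerivAt (fun z : ℝ => (z : ℂ) * w) w t := by
        have h1 : HasDerivAt (fun z : ℝ => (z : ℂ)) 1 t := Complex.ofRealCLM.hasDerivAt
        have := h1.mul_const w
        simpa using this
      have hcomp : HasDerivAt (fun z : ℝ => h ((z : ℂ) * w)) (w • deriv h s) t := by
        have := HasDerivAt.scomp (𝕜' := ℂ) t hdat hline
        exact this
      have hsl : Tendsto (fun z : ℝ => (z - t)⁻¹ • (h ((z : ℂ) * w) - h s)) (𝓝[>] t)
          (𝓝 (w • deriv h s)) := by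
        have h1 := hasDerivAt_iff_tendsto_slope.mp hcomp
        have h2 : 𝓝[>] t ≤ 𝓝[≠] t := nhdsWithin_mono _ (fun z hz => ne_of_gt hz)
        exact (h1.mono_left h2)
      have hcrl : Tendsto (fun z : ℝ => ‖cr (h s) ((z - t)⁻¹ • (h ((z : ℂ) * w) - h s))‖) (𝓝[>] t)
          (𝓝 ‖cr (h s) (w • deriv h s)‖) :=
        (((continuous_cr (h s)).norm.tendsto _).comp hsl)
      have hNl : Tendsto (fun z : ℝ => √(N2 (h s) * N2 (h ((z : ℂ) * w)))) (𝓝[>] t)
          (𝓝 (√(N2 (h s) * N2 (h s)))) := by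
        have h1 : Tendsto (fun z : ℝ => h ((z : ℂ) * w)) (𝓝[>] t) (𝓝 (h s)) :=
          (hcomp.continuousAt.tendsto).mono_left nhdsWithin_le_nhds
        have h2 := (continuous_N2.tendsto (h s)).comp h1
        exact ((Real.continuous_sqrt.tendsto _).comp (h2.const_mul (N2 (h s))))
      have hsq : √(N2 (h s) * N2 (h s)) = N2 (h s) := Real.sqrt_mul_self hN.le
      have hlim := hcrl.div hNl (by rw [hsq]; exact hN.ne')
      have hval : ‖cr (h s) (w • deriv h s)‖ / √(N2 (h s) * N2 (h s)) = spd h s * ‖w‖ := by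
        rw [hsq, cr_smul_right, norm_mul, cr_comm, norm_neg]
        unfold spd
        ring
      have hlt : ‖cr (h s) (w • deriv h s)‖ / √(N2 (h s) * N2 (h s)) < r := by
        rw [hval]
        calc spd h s * ‖w‖ ≤ M * ‖w‖ := by
              gcongr
              exact hM _ (hmem t ht')
          _ < r := hr
      have hev := hlim.eventually (gt_mem_nhds hlt)
      have hev2 : ∀ᶠ z : ℝ in 𝓝[>] t, z ∈ Ioo t 1 := Ioo_mem_nhdsGT ht.2
      apply Filter.Eventually.frequently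
      filter_upwards [hev, hev2] with z hz hz2
      have hzt : 0 < z - t := by linarith [hz2.1]
      have hz0 : h ((z : ℂ) * w) ≠ 0 := h0 _ (hmem z ⟨by linarith [ht.1, hz2.1], hz2.2.le⟩)
      have htri := tri (h 0) (h s) (h ((z : ℂ) * w)) h00 hat hz0
      have hle : cho (h s) (h ((z : ℂ) * w)) / (z - t) =
          ‖cr (h s) ((z - t)⁻¹ • (h ((z : ℂ) * w) - h s))‖ /
            √(N2 (h s) * N2 (h ((z : ℂ) * w))) := by
        have e1 : cr (h s) ((z - t)⁻¹ • (h ((z : ℂ) * w) - h s)) =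
            (((z - t)⁻¹ : ℝ) : ℂ) * cr (h s) (h ((z : ℂ) * w)) := by
          have e2 : (z - t)⁻¹ • (h ((z : ℂ) * w) - h s) =
              ((((z - t)⁻¹ : ℝ)) : ℂ) • (h ((z : ℂ) * w) - h s) := by
            rw [Complex.coe_smul]
          rw [e2, cr_smul_right]
          congr 1
          unfold cr
          simp only [Prod.fst_sub, Prod.snd_sub]
          ring
        rw [e1, norm_mul, Complex.norm_real, Real.norm_of_nonneg (by positivity)]
        unfold cho
        field_simp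
      rw [slope_def_field]
      calc (cho (h 0) (h ((z : ℂ) * w)) - cho (h 0) (h ((t : ℂ) * w))) / (z - t)
          ≤ cho (h s) (h ((z : ℂ) * w)) / (z - t) := by
            gcongr
            linarith
        _ = _ := hle
        _ < r := hz
    · simp [cho_self]
    · fun_prop
    · intro t _
      have := ((hasDerivAt_id t).const_mul M').hasDerivWithinAt (s := Ici t)
      simpa using this
    · intro t _ _
      exact hM'
  exact le_of_forall_gt_imp_ge_of_dense (fun M' hM' => key M' hM')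

/-! ### The exceptional directions -/

/-- there is a critical direction -/
theorem exists_crit {d : ℕ} (x : CV d) (hd : 2 ≤ d) : ∃ c : ℂ × ℂ, c ≠ 0 ∧ wr x c = 0 := by
  obtain ⟨W, hW1, hW2, hW3⟩ := (WR d x hd).2.1
  by_cases h : wr x (1, 0) = 0
  · exact ⟨(1, 0), by simp, h⟩
  · have hdeg : W.degree ≠ 0 := by
      intro h0
      have h1 : W.natDegree = 0 := Polynomial.natDegree_eq_of_degree_eq_some h0
      have h2 : W.coeff (2 * d - 2) = 0 := Polynomial.coeff_eq_zero_of_natDegree_lt (by omega)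
      rw [hW3] at h2
      exact h h2
    obtain ⟨ζ, hζ⟩ := IsAlgClosed.exists_root W hdeg
    refine ⟨(ζ, 1), by simp, ?_⟩
    rw [← hW2]
    exact hζ

theorem hF_pol {d : ℕ} (x : CV d) (ζ : ℂ) :
    hF x (ζ, 1) = ((pol x 0).eval ζ, (pol x 1).eval ζ) := by
  unfold hF pol
  simp [Polynomial.eval_finsetSum]

theorem hF_inf {d : ℕ} (x : CV d) : hF x (1, 0) = ((pol x 0).coeff d, (pol x 1).coeff d) := by
  have h : ∀ i : Fin 2, ∑ j : Fin (d + 1), x (i, j) * ((1 : ℂ) ^ (j : ℕ) * 0 ^ (d - (j : ℕ))) =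
      (pol x i).coeff d := by
    intro i
    unfold pol
    rw [Polynomial.finsetSum_coeff]
    refine Finset.sum_congr rfl fun j _ => ?_
    rw [Polynomial.coeff_monomial]
    have hj := j.2
    by_cases h : (j : ℕ) = d
    · rw [if_pos h, h]
      simp
    · have h2 : d - (j : ℕ) ≠ 0 := by omega
      rw [if_neg h, zero_pow h2]
      simp
  unfold hF
  rw [← h 0, ← h 1]

/-- every direction has a preimage -/
theorem exists_pre {d : ℕ} (x : CV d) (hd : 2 ≤ d) (a : ℂ × ℂ) :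
    ∃ e : ℂ × ℂ, e ≠ 0 ∧ cr (hF x e) a = 0 := by
  by_cases h : cr (hF x (1, 0)) a = 0
  · exact ⟨(1, 0), by simp, h⟩
  · set G : ℂ[X] := pol x 0 * C a.2 - pol x 1 * C a.1 with hG
    have hdeg : G.degree ≠ 0 := by
      intro h0
      have h1 : G.natDegree = 0 := Polynomial.natDegree_eq_of_degree_eq_some h0
      have h2 : G.coeff d = 0 := Polynomial.coeff_eq_zero_of_natDegree_lt (by omega)
      apply h
      rw [hF_inf]
      unfold cr
      rw [hG, Polynomial.coeff_sub, Polynomial.coeff_mul_C, Polynomial.coeff_mul_C] at h2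
      exact h2
    obtain ⟨ζ, hζ⟩ := IsAlgClosed.exists_root G hdeg
    refine ⟨(ζ, 1), by simp, ?_⟩
    rw [hF_pol]
    unfold cr
    have : G.eval ζ = 0 := hζ
    rw [hG, Polynomial.eval_sub, Polynomial.eval_mul, Polynomial.eval_mul, Polynomial.eval_C,
      Polynomial.eval_C] at this
    exact this

theorem wr_zero_of_cr {d : ℕ} (x : CV d) (hd : 2 ≤ d) {p q : ℂ × ℂ} (hp : p ≠ 0) (hq : q ≠ 0)
    (h : cr p q = 0) (hw : wr x q = 0) : wr x p = 0 := by
  obtain ⟨a, -, rfl⟩ := (cr_eq_zero_iff hp hq).mp h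
  rw [(WR d x hd).1, hw, mul_zero]

/-- critical points are not mapped to critical points -/
theorem ce_no {d : ℕ} {x : CV d} (hce : CE x) {c : ℂ × ℂ} (hc : c ≠ 0) (hw : wr x c = 0) (n : ℕ) :
    wr x ((hF x)^[n] (hF x c)) ≠ 0 := by
  intro h
  obtain ⟨C, hC, μ, hμ, hb⟩ := hce c hc hw
  have h1 := hb (n + 1)
  have h2 : sdn x (n + 1) (hF x c) = 0 := by
    unfold sdn
    apply Finset.prod_eq_zero (Finset.mem_range.mpr (Nat.lt_succ_self n))
    unfold sd
    rw [h]
    simp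
  rw [h2] at h1
  have : 0 < C * μ ^ (n + 1) := by positivity
  linarith

/-- three directions whose preimages are preimages of critical directions -/
theorem three {d : ℕ} {x : CV d} (hd : 2 ≤ d) (hnd : ND x) (hce : CE x) :
    ∃ e : Fin 3 → ℂ × ℂ, (∀ i, e i ≠ 0 ∧ ∃ m : ℕ, wr x ((hF x)^[m] (e i)) = 0) ∧
      cr (e 0) (e 1) ≠ 0 ∧ cr (e 1) (e 2) ≠ 0 ∧ cr (e 0) (e 2) ≠ 0 := by
  obtain ⟨c, hc, hw⟩ := exists_crit x hd
  obtain ⟨e1, h1, h1c⟩ := exists_pre x hd c
  obtain ⟨e2, h2, h21⟩ := exists_pre x hd e1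
  have nd1 : ∀ {p : ℂ × ℂ}, p ≠ 0 → hF x p ≠ 0 := fun {p} hp h => hp (hnd p h)
  have par : ∀ {p q : ℂ × ℂ}, p ≠ 0 → q ≠ 0 → cr p q = 0 → cr (hF x p) (hF x q) = 0 := by
    intro p q hp hq h
    exact cr_iter x 1 hp hq h
  have sym : ∀ {p q : ℂ × ℂ}, cr p q = 0 → cr q p = 0 := by
    intro p q h
    rw [cr_comm, h, neg_zero]
  -- first
  have k1 : cr c e1 ≠ 0 := by
    intro h
    have a1 := par hc h1 h
    have a2 := cr_trans (nd1 h1) a1 h1c
    exact ce_no hce hc hw 0 (wr_zero_of_cr x hd (nd1 hc) hc a2 hw)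
  have k2 : cr e1 e2 ≠ 0 := by
    intro h
    have a1 := par h1 h2 h
    have a2 := cr_trans (nd1 h2) a1 h21
    exact k1 (cr_trans (nd1 h1) (sym h1c) a2)
  have k3 : cr c e2 ≠ 0 := by
    intro h
    have a1 := par hc h2 h
    have a2 := cr_trans (nd1 h2) a1 h21
    have a3 := par (nd1 hc) h1 a2
    have a4 := cr_trans (nd1 h1) a3 h1c
    exact ce_no hce hc hw 1 (wr_zero_of_cr x hd (nd1 (nd1 hc)) hc a4 hw)
  have w1 : wr x (hF x e1) = 0 := wr_zero_of_cr x hd (nd1 h1) hc h1c hw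
  have w2 : wr x (hF x (hF x e2)) = 0 := by
    have a1 := par (nd1 h2) h1 h21
    exact wr_zero_of_cr x hd (nd1 (nd1 h2)) hc (cr_trans (nd1 h1) a1 h1c) hw
  refine ⟨![c, e1, e2], ?_, k1, k2, k3⟩
  intro i
  fin_cases i
  · exact ⟨hc, 0, hw⟩
  · exact ⟨h1, 1, w1⟩
  · exact ⟨h2, 2, w2⟩

/-! ### The theorem -/

theorem t_DCR (hcho : S_CHO) (hmm : S_MM) : S_DCR := by
  intro d x hd hnd hce hJ
  obtain ⟨tri, -, cz, csm, -⟩ := hcho
  by_contra hcon
  unfold DCR at hcon
  push Not at hcon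
  obtain ⟨δ, hδ, p, hp, hno⟩ := hcon
  obtain ⟨e, he, k01, k12, k02⟩ := three hd hnd hce
  have cpos : ∀ a b : ℂ × ℂ, a ≠ 0 → b ≠ 0 → cr a b ≠ 0 → 0 < cho a b := by
    intro a b ha hb hab
    have h1 : 0 ≤ cho a b := by unfold cho; positivity
    exact lt_of_le_of_ne h1 (fun h => hab ((cz a b ha hb).mp h.symm))
  set σ := min (cho (e 0) (e 1)) (min (cho (e 1) (e 2)) (cho (e 0) (e 2))) with hσ
  have hσ0 : 0 < σ := by
    rw [hσ]
    exact lt_min (cpos _ _ (he 0).1 (he 1).1 k01)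
      (lt_min (cpos _ _ (he 1).1 (he 2).1 k12) (cpos _ _ (he 0).1 (he 2).1 k02))
  obtain ⟨K, hK, hspd⟩ := hmm σ hσ0
  -- the iterates omit the three directions
  have omit' : ∀ (n : ℕ) (w : ℂ), w ∈ ball (0 : ℂ) δ → ∀ i,
      cr ((hF x)^[n] (p + w • rot p)) (e i) ≠ 0 := by
    intro n w hw i h
    obtain ⟨hei, m, hm⟩ := he i
    have hq := rot_ne hp w
    rw [mem_ball_zero_iff] at hw
    have hlt := lt_of_le_of_lt (cho_rot hp w) hw
    have h1 := hno (p + w • rot p) hq hlt (m + n)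
    apply h1
    rw [Function.iterate_add_apply]
    have h2 := cr_iter x m (hnd.iter_ne n hq) hei h
    exact wr_zero_of_cr x hd (hnd.iter_ne m (hnd.iter_ne n hq)) (hnd.iter_ne m hei) h2 hm
  have hdiff : ∀ n : ℕ, Differentiable ℂ (fun w : ℂ => (hF x)^[n] (p + w • rot p)) := by
    intro n
    have h1 := hF_iter_differentiable d n
    have h2 : Differentiable ℂ (fun w : ℂ => ((x, p + w • rot p) : CV d × (ℂ × ℂ))) := by
      fun_prop
    exact h1.comp h2
  have hspeed : ∀ n : ℕ, ∀ v ∈ ball (0 : ℂ) (δ / 2),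
      spd (fun w : ℂ => (hF x)^[n] (p + w • rot p)) v ≤ K / (δ / 2) := by
    intro n v hv
    have hsub : ball v (δ / 2) ⊆ ball (0 : ℂ) δ := by
      intro z hz
      rw [mem_ball_zero_iff] at hv ⊢
      rw [mem_ball, dist_eq_norm] at hz
      calc ‖z‖ = ‖(z - v) + v‖ := by ring_nf
        _ ≤ ‖z - v‖ + ‖v‖ := norm_add_le _ _
        _ < δ := by linarith
    apply hspd (fun w : ℂ => (hF x)^[n] (p + w • rot p)) v (δ / 2) (e 0) (e 1) (e 2)
      (by positivity) (hdiff n).differentiableOn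
      (fun z _ => hnd.iter_ne n (rot_ne hp z)) (he 0).1 (he 1).1 (he 2).1
      (min_le_left _ _) ((min_le_right _ _).trans (min_le_left _ _))
      ((min_le_right _ _).trans (min_le_right _ _))
    intro z hz
    exact ⟨omit' n z (hsub hz) 0, omit' n z (hsub hz) 1, omit' n z (hsub hz) 2⟩
  obtain ⟨ε, hε, hJp⟩ := hJ p hp
  set M := K / (δ / 2) with hM
  have hM0 : 0 < M := by positivity
  obtain ⟨q, hq, hqp, n, hn⟩ := hJp (min (1 / 2) (min (δ / 4) (ε / (2 * M)))) (by positivity)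
  have hq1 : cho p q ≤ 1 / 2 := (hqp.trans_le (min_le_left _ _)).le
  have hq2 : cho p q < δ / 4 := hqp.trans_le ((min_le_right _ _).trans (min_le_left _ _))
  have hq3 : cho p q < ε / (2 * M) := hqp.trans_le ((min_le_right _ _).trans (min_le_right _ _))
  obtain ⟨w, a, ha, hqa, hwn⟩ := param hp hq hq1
  have hwb : w ∈ ball (0 : ℂ) (δ / 2) := by
    rw [mem_ball_zero_iff]
    linarith
  have hle := cho_le_of_spd tri (hdiff n).differentiableOn
    (fun z _ => hnd.iter_ne n (rot_ne hp z)) (hspeed n) hwb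
  have e1 : (hF x)^[n] (p + (0 : ℂ) • rot p) = (hF x)^[n] p := by
    rw [zero_smul, add_zero]
  have e2 : cho ((hF x)^[n] p) ((hF x)^[n] q) =
      cho ((hF x)^[n] p) ((hF x)^[n] (p + w • rot p)) := by
    rw [hqa, hF_iter_smul]
    have := csm ((hF x)^[n] p) ((hF x)^[n] (p + w • rot p)) 1 (a ^ (d ^ n)) one_ne_zero
      (pow_ne_zero _ ha)
    rwa [one_smul] at this
  have hle' : cho ((hF x)^[n] p) ((hF x)^[n] (p + w • rot p)) ≤ M * ‖w‖ := by
    rw [← e1]
    exact hle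
  rw [e2] at hn
  have h5 : M * ‖w‖ ≤ M * (2 * cho p q) := by gcongr
  have h6 : M * (2 * cho p q) < ε := by
    rw [lt_div_iff₀ (by positivity)] at hq3
    linarith
  linarith

end Pool.Agent.H263.HY211
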